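import Pool.Agent.L0h18.FS.Defs

/-! # FS: COL -/

set_option autoImplicit false
set_option linter.all false

namespace Pool.Agent.L0h88.FS

open Pool.Agent.L0h18.FS
open Nat.Partrec (Code)

theorem jump_of_eq {E : ℕ → ℕ → Prop} {e e' : ℕ} (h : ∀ n, φ e n = φ e' n) : jump E e e' := by
  unfold jump
  simp only [h]

theorem φ_part (e : ℕ) : Partrec (φ e) := φ_partrec.comp (Computable.const e) Computable.id

theorem col : S_COL := by
  intro R S f hf h
  obtain ⟨s0, -, hs0⟩ := smn (α := ℕ) (f := fun _ _ => Part.none) Partrec.none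
  have key : ∀ e, (f e).unpair.1 = (f (s0 0)).unpair.1 := by
    intro e
    by_contra hne
    have hc : Computable (fun p : ℕ × ℕ => decide ((f p.1).unpair.1 = (f (s0 0)).unpair.1)) := by
      have h1 : Computable (fun p : ℕ × ℕ => (f p.1).unpair.1) :=
        (Computable.fst.comp Computable.unpair).comp (hf.comp Computable.fst)
      have h3 : Computable₂ (fun a b : ℕ => decide (a = b)) :=
        (Primrec.eq (α := ℕ)).decide.to_comp
      exact h3.comp h1 (Computable.const _)
    have hp : Partrec₂ (fun (z n : ℕ) => cond (decide ((f z).unpair.1 = (f (s0 0)).unpair.1))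
        (φ e n) Part.none) :=
      Partrec.cond hc ((φ_part e).comp Computable.snd) Partrec.none
    obtain ⟨z, hz⟩ := recursion hp
    by_cases h1 : (f z).unpair.1 = (f (s0 0)).unpair.1
    · have h3 : jump R z e := jump_of_eq fun n => by rw [hz n, decide_eq_true h1]; rfl
      exact hne (((h z e).1 h3).1.symm.trans h1)
    · have h3 : jump R z (s0 0) := jump_of_eq fun n => by
        rw [hz n, decide_eq_false h1, hs0]; rfl
      exact h1 ((h z (s0 0)).1 h3).1
  intro x y
  rw [key x, key y]

end Pool.Agent.L0h88.FS
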