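import Pool.Agent.L0h18.FS.Defs

/-! # FS: DIAG -/

set_option autoImplicit false
set_option linter.all false

namespace Pool.Agent.L0h88.FS

open Pool.Agent.L0h18.FS
open Nat.Partrec (Code)

theorem red_iter (hM : S_MONO) {F : ℕ → ℕ → Prop} (hF : Equivalence F) (h : Red (jump F) F)
    (k : ℕ) : Red (jump^[k] F) F := by
  induction k with
  | zero => exact Red.refl F
  | succ k ih =>
    rw [Function.iterate_succ_apply']
    exact (hM.1 _ _ (iter_equiv hF k) hF ih).trans h

theorem diag : S_DIAG := by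
  intro hM F hF hTC hred
  obtain ⟨k, ⟨c, t1, t0⟩, hne, htd⟩ := hTC
  obtain ⟨h, hhc, hh⟩ := red_iter hM hF hred k
  obtain ⟨f, hfc, hf⟩ := hred
  have hH : Equivalence (jump^[k] F) := iter_equiv hF k
  -- the key property
  have key : ∀ x y z, z ∈ φ c (Nat.pair x y) → (¬ F x y ↔ F (h z) (h t0)) := by
    intro x y z hz
    obtain ⟨z', hz', h1, h2⟩ := htd x y
    have e : z = z' := Part.mem_unique hz hz'
    subst e
    rw [← hh]
    constructor
    · exact h2
    · intro h3 h4
      exact hne (hH.trans (hH.symm (h1 h4)) h3)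
  have hφc : Partrec (φ c) := φ_partrec.comp (Computable.const c) Computable.id
  have hdg : Partrec (fun p : ℕ × ℕ => φ p.1 p.1) := φ_partrec.comp Computable.fst Computable.fst
  obtain ⟨C, hCc, hC⟩ := smn (α := ℕ)
    (f := fun e _ => (φ e e).bind fun z => (φ c z).map h)
    (Partrec.bind hdg ((hφc.comp Computable.snd).map (hhc.comp Computable.snd).to₂).to₂)
  obtain ⟨D, hDc, hD⟩ := smn (α := ℕ) (f := fun e _ => (φ e e).map fun _ => h t0)
    (Partrec.map hdg (Computable.const (h t0)).to₂)
  have hpair : Computable (fun e : ℕ => Nat.pair (f (C e)) (f (D e))) :=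
    (Primrec₂.natPair.to_comp).comp (hfc.comp hCc) (hfc.comp hDc)
  obtain ⟨e1, -, he1⟩ := smn (α := ℕ) (f := fun _ e => Part.some (Nat.pair (f (C e)) (f (D e))))
    (hpair.comp Computable.snd).to₂.partrec₂
  set e0 := e1 0 with he0
  have hz0' : φ e0 e0 = Part.some (Nat.pair (f (C e0)) (f (D e0))) := he1 0 e0
  obtain ⟨z, hz, -⟩ := htd (f (C e0)) (f (D e0))
  have hz' : φ c (Nat.pair (f (C e0)) (f (D e0))) = Part.some z := Part.eq_some_iff.2 hz
  have hCe : ∀ n, φ (C e0) n = Part.some (h z) := by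
    intro n
    rw [hC, hz0', Part.bind_some, hz', Part.map_some]
  have hDe : ∀ n, φ (D e0) n = Part.some (h t0) := by
    intro n
    rw [hD, hz0', Part.map_some]
  have hj : jump F (C e0) (D e0) ↔ F (h z) (h t0) := by
    rw [jump_iff hF]
    constructor
    · rintro ⟨h1, -⟩
      obtain ⟨m, w, hw, hvw⟩ := h1 0 (h z) (by rw [hCe]; exact Part.mem_some _)
      rw [hDe, Part.mem_some_iff] at hw
      rwa [hw] at hvw
    · intro h1
      constructor
      · intro n v hv
        rw [hCe, Part.mem_some_iff] at hv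
        exact ⟨0, h t0, by rw [hDe]; exact Part.mem_some _, by rw [hv]; exact h1⟩
      · intro n v hv
        rw [hDe, Part.mem_some_iff] at hv
        exact ⟨0, h z, by rw [hCe]; exact Part.mem_some _, by rw [hv]; exact hF.symm h1⟩
  have h3 := key _ _ z hz
  rw [hf] at hj
  rw [← h3] at hj
  exact not_iff_self hj.symm

end Pool.Agent.L0h88.FS
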