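import Pool.Agent.L0h18.FS.Defs

/-! # FS: NB, the standard notation of `ω²` -/

set_option autoImplicit false
set_option linter.all false

namespace Pool.Agent.L0h88.FS

open Pool.Agent.L0h18.FS
open Nat.Partrec (Code)

theorem exists_succ : ∃ s : ℕ → ℕ, Computable s ∧
    ∀ z j, (fun x : ℕ => 2 ^ x)^[j] z ∈ φ (s z) j := by
  have h1 : Computable₂ (fun (z j : ℕ) => (fun x : ℕ => 2 ^ x)^[j] z) := by
    have hpow : Computable (fun x : ℕ => 2 ^ x) := by
      have h3 : Computable (fun x : ℕ => Nat.rec (motive := fun _ => ℕ) 1 (fun _ r => 2 * r) x) := by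
        refine Computable.nat_rec (f := fun x : ℕ => x) (g := fun _ => 1)
          (h := fun _ p => 2 * p.2) Computable.id (Computable.const 1) ?_
        exact Primrec.nat_mul.to_comp.comp (Computable.const 2)
          (Computable.snd.comp Computable.snd)
      refine h3.of_eq fun x => ?_
      induction x with
      | zero => rfl
      | succ n ih =>
        show 2 * _ = _
        rw [ih, pow_succ, mul_comm]
    have h3 : Computable (fun p : ℕ × ℕ =>
        Nat.rec (motive := fun _ => ℕ) p.1 (fun _ r => 2 ^ r) p.2) := by
      refine Computable.nat_rec (f := fun p : ℕ × ℕ => p.2) (g := fun p => p.1)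
        (h := fun _ q => 2 ^ q.2) Computable.snd Computable.fst ?_
      exact hpow.comp (Computable.snd.comp Computable.snd)
    refine h3.of_eq fun p => ?_
    obtain ⟨z, j⟩ := p
    show Nat.rec (motive := fun _ => ℕ) z (fun _ r => 2 ^ r) j = (fun x : ℕ => 2 ^ x)^[j] z
    induction j with
    | zero => rfl
    | succ n ih =>
      rw [Function.iterate_succ_apply', ← ih]
  obtain ⟨s, hs, hs'⟩ := smn (α := ℕ)
    (f := fun z j => Part.some ((fun x : ℕ => 2 ^ x)^[j] z)) h1.partrec₂
  refine ⟨s, hs, fun z j => ?_⟩
  rw [hs' z j]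
  exact Part.mem_some _

open Ordinal in
theorem nb : S_NB := by
  obtain ⟨s, hs, hs'⟩ := exists_succ
  let std : ℕ → ℕ := fun m => Nat.rec (motive := fun _ => ℕ) 1 (fun _ r => 3 * 5 ^ s r) m
  have hstd0 : std 0 = 1 := rfl
  have hstd1 : ∀ m, std (m + 1) = 3 * 5 ^ s (std m) := fun _ => rfl
  have hcomp : Computable std := by
    have hpow : Computable (fun x : ℕ => 5 ^ x) := by
      have h3 : Computable (fun x : ℕ => Nat.rec (motive := fun _ => ℕ) 1 (fun _ r => 5 * r) x) := by
        refine Computable.nat_rec (f := fun x : ℕ => x) (g := fun _ => 1)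
          (h := fun _ p => 5 * p.2) Computable.id (Computable.const 1) ?_
        exact Primrec.nat_mul.to_comp.comp (Computable.const 5)
          (Computable.snd.comp Computable.snd)
      refine h3.of_eq fun x => ?_
      induction x with
      | zero => rfl
      | succ n ih =>
        show 5 * _ = _
        rw [ih, pow_succ, mul_comm]
    refine Computable.nat_rec (f := fun m : ℕ => m) (g := fun _ => 1)
      (h := fun _ q => 3 * 5 ^ s q.2) Computable.id (Computable.const 1) ?_
    exact Primrec.nat_mul.to_comp.comp (Computable.const 3)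
      (hpow.comp (hs.comp (Computable.snd.comp Computable.snd)))
  have hpos : ∀ m, 0 < std m := by
    intro m
    cases m with
    | zero => exact one_pos
    | succ m => rw [hstd1]; positivity
  have hit : ∀ m j, Iter Eq (std m) (Om^[m] Eq) →
      Iter Eq ((fun x : ℕ => 2 ^ x)^[j] (std m)) (jump^[j] (Om^[m] Eq)) := by
    intro m j h
    induction j with
    | zero => exact h
    | succ j ih =>
      rw [Function.iterate_succ_apply', Function.iterate_succ_apply']
      exact Iter.succ _ _ ih
  have hI : ∀ m, Iter Eq (std m) (Om^[m] Eq) := by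
    intro m
    induction m with
    | zero => exact Iter.zero
    | succ m ih =>
      rw [hstd1, Function.iterate_succ_apply']
      exact Iter.lim (s (std m)) _ _ (fun j => hs' (std m) j) fun j => hit m j ih
  have hpos' : ∀ m j, 0 < (fun x : ℕ => 2 ^ x)^[j] (std m) := by
    intro m j
    cases j with
    | zero => exact hpos m
    | succ j =>
      rw [Function.iterate_succ_apply']
      positivity
  have hden : ∀ m j, Denotes (std m) (ω * m) →
      Denotes ((fun x : ℕ => 2 ^ x)^[j] (std m)) (ω * m + j) := by
    intro m j h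
    induction j with
    | zero => simpa using h
    | succ j ih =>
      rw [Function.iterate_succ_apply', Nat.cast_succ, ← add_assoc]
      exact Denotes.succ _ _ ih
  have hD : ∀ m : ℕ, Denotes (std m) (ω * m) := by
    intro m
    induction m with
    | zero => rw [hstd0]; simpa using Denotes.zero
    | succ m ih =>
      rw [hstd1, Nat.cast_succ, mul_add, mul_one, ← Ordinal.iSup_add_natCast]
      refine Denotes.lim (s (std m)) _ _ (fun j => hs' (std m) j) (fun j => ?_) fun j => hden m j ih
      show LtO ((fun x : ℕ => 2 ^ x)^[j] (std m)) ((fun x : ℕ => 2 ^ x)^[j + 1] (std m))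
      rw [Function.iterate_succ_apply']
      exact LtO.succ _ (hpos' m j)
  obtain ⟨e, -, he⟩ := smn (α := ℕ) (f := fun _ m => Part.some (std m))
    (hcomp.comp Computable.snd).to₂.partrec₂
  have he' : ∀ m, std m ∈ φ (e 0) m := fun m => by rw [he]; exact Part.mem_some _
  refine ⟨3 * 5 ^ e 0, ?_, ?_⟩
  · rw [← Ordinal.iSup_mul_natCast]
    refine Denotes.lim (e 0) std _ he' (fun m => ?_) hD
    rw [hstd1]
    exact LtO.lim _ 0 _ (hs' (std m) 0)
  · exact Iter.lim (e 0) std _ he' hI

end Pool.Agent.L0h88.FS
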